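import Mathlib
set_option autoImplicit false

/-!
# The distance spectrum does not determine bipartiteness

We exhibit two connected graphs on `16` vertices with the same distance spectrum, one bipartite and the
other one containing a triangle.

`Γ` is the blow-up of the path `v5 - v0 - v3 - v2 - v1 - v4` with independent classes of sizes
`1, 4, 3, 1, 6, 1`; `Ω` is the blow-up of a graph on `7` vertices (with a triangle) with independent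
classes of sizes `4, 1, 3, 1, 3, 1, 3`. Both graphs are given through their tables of distances: `i` and
`j` are adjacent iff the table entry is `1`, and it is proved below that the tables are the distance
functions. The two integer distance matrices `D₁`, `D₂` are cospectral because `S D₁ = D₂ S` for an
integer matrix `S` with `S T = 48`.
-/

namespace Pool.Agent.Results.MP_69260a_co.BipartiteCospectral

/-- the distance matrix of a graph on `Fin n`, as a real matrix -/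
noncomputable def distMatrix {n : ℕ} (G : SimpleGraph (Fin n)) : Matrix (Fin n) (Fin n) ℝ :=
  fun i j => (G.dist i j : ℝ)

/-- the distance spectrum: the multiset of eigenvalues (with multiplicities) of the distance matrix,
i.e. the multiset of the real roots of its characteristic polynomial -/
noncomputable def distSpectrum {n : ℕ} (G : SimpleGraph (Fin n)) : Multiset ℝ :=
  (distMatrix G).charpoly.roots

/-! ### The data -/

/-- distance table of `Γ` -/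
def t₁ : Fin 16 → Fin 16 → ℕ :=
  ![![0, 2, 2, 2, 3, 3, 3, 3, 3, 3, 2, 1, 1, 1, 4, 1],
    ![2, 0, 2, 2, 3, 3, 3, 3, 3, 3, 2, 1, 1, 1, 4, 1],
    ![2, 2, 0, 2, 3, 3, 3, 3, 3, 3, 2, 1, 1, 1, 4, 1],
    ![2, 2, 2, 0, 3, 3, 3, 3, 3, 3, 2, 1, 1, 1, 4, 1],
    ![3, 3, 3, 3, 0, 2, 2, 2, 2, 2, 1, 2, 2, 2, 1, 4],
    ![3, 3, 3, 3, 2, 0, 2, 2, 2, 2, 1, 2, 2, 2, 1, 4],
    ![3, 3, 3, 3, 2, 2, 0, 2, 2, 2, 1, 2, 2, 2, 1, 4],
    ![3, 3, 3, 3, 2, 2, 2, 0, 2, 2, 1, 2, 2, 2, 1, 4],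
    ![3, 3, 3, 3, 2, 2, 2, 2, 0, 2, 1, 2, 2, 2, 1, 4],
    ![3, 3, 3, 3, 2, 2, 2, 2, 2, 0, 1, 2, 2, 2, 1, 4],
    ![2, 2, 2, 2, 1, 1, 1, 1, 1, 1, 0, 1, 1, 1, 2, 3],
    ![1, 1, 1, 1, 2, 2, 2, 2, 2, 2, 1, 0, 2, 2, 3, 2],
    ![1, 1, 1, 1, 2, 2, 2, 2, 2, 2, 1, 2, 0, 2, 3, 2],
    ![1, 1, 1, 1, 2, 2, 2, 2, 2, 2, 1, 2, 2, 0, 3, 2],
    ![4, 4, 4, 4, 1, 1, 1, 1, 1, 1, 2, 3, 3, 3, 0, 5],
    ![1, 1, 1, 1, 4, 4, 4, 4, 4, 4, 3, 2, 2, 2, 5, 0]]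

/-- distance table of `Ω` -/
def t₂ : Fin 16 → Fin 16 → ℕ :=
  ![![0, 2, 2, 2, 2, 2, 2, 2, 3, 3, 3, 3, 1, 1, 1, 1],
    ![2, 0, 2, 2, 2, 2, 2, 2, 3, 3, 3, 3, 1, 1, 1, 1],
    ![2, 2, 0, 2, 2, 2, 2, 2, 3, 3, 3, 3, 1, 1, 1, 1],
    ![2, 2, 2, 0, 2, 2, 2, 2, 3, 3, 3, 3, 1, 1, 1, 1],
    ![2, 2, 2, 2, 0, 1, 1, 1, 2, 1, 1, 1, 1, 3, 3, 3],
    ![2, 2, 2, 2, 1, 0, 2, 2, 1, 2, 2, 2, 1, 3, 3, 3],
    ![2, 2, 2, 2, 1, 2, 0, 2, 1, 2, 2, 2, 1, 3, 3, 3],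
    ![2, 2, 2, 2, 1, 2, 2, 0, 1, 2, 2, 2, 1, 3, 3, 3],
    ![3, 3, 3, 3, 2, 1, 1, 1, 0, 1, 1, 1, 2, 4, 4, 4],
    ![3, 3, 3, 3, 1, 2, 2, 2, 1, 0, 2, 2, 2, 4, 4, 4],
    ![3, 3, 3, 3, 1, 2, 2, 2, 1, 2, 0, 2, 2, 4, 4, 4],
    ![3, 3, 3, 3, 1, 2, 2, 2, 1, 2, 2, 0, 2, 4, 4, 4],
    ![1, 1, 1, 1, 1, 1, 1, 1, 2, 2, 2, 2, 0, 2, 2, 2],
    ![1, 1, 1, 1, 3, 3, 3, 3, 4, 4, 4, 4, 2, 0, 2, 2],
    ![1, 1, 1, 1, 3, 3, 3, 3, 4, 4, 4, 4, 2, 2, 0, 2],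
    ![1, 1, 1, 1, 3, 3, 3, 3, 4, 4, 4, 4, 2, 2, 2, 0]]

/-- the intertwining matrix -/
def S : Fin 16 → Fin 16 → ℤ :=
  ![![0, 0, 0, 0, 0, -1, 0, 1, 0, 0, 0, -3, -3, -3, 0, -3],
    ![0, 1, 0, -1, 0, 1, 0, -1, 0, 0, 0, -3, -4, -2, 0, -3],
    ![0, 0, 0, 0, 0, 0, 0, 0, 0, 0, 0, -3, -2, -4, 0, -3],
    ![0, -1, 0, 1, 0, 0, 0, 0, 0, 0, 0, -3, -3, -3, 0, -3],
    ![0, 0, 0, 0, 0, -1, 1, 0, 0, 0, -9, 0, 0, 0, -3, 0],
    ![0, 0, 0, 0, -2, -1, -2, -2, -3, -2, -3, 0, 0, 0, 3, 0],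
    ![0, 0, 0, 0, -2, -3, -3, -2, -1, -1, -3, 0, 0, 0, 3, 0],
    ![0, 0, 0, 0, -2, -1, -2, -2, -2, -3, -3, 0, 0, 0, 3, 0],
    ![0, 0, 0, 0, 0, 1, -1, 0, 0, 0, -3, 0, 0, 0, -9, 0],
    ![1, -1, 0, 0, -2, -3, -1, -2, -2, -2, 3, 0, 0, 0, -3, 0],
    ![-1, 1, 0, 0, -3, -1, -2, -2, -2, -2, 3, 0, 0, 0, -3, 0],
    ![0, 0, 0, 0, -1, -3, -2, -2, -2, -2, 3, 0, 0, 0, -3, 0],
    ![-3, -3, -3, -3, 0, 0, 0, 0, 0, 0, 0, -3, -3, -3, 0, 9],
    ![-3, -3, -3, -3, 0, 0, 0, 0, 0, 0, 0, 0, 2, 1, 0, -3],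
    ![-3, -4, -2, -3, 0, 0, 0, 0, 0, 0, 0, 2, 0, 1, 0, -3],
    ![-3, -2, -4, -3, 0, 0, 0, 0, 0, 0, 0, 1, 1, 1, 0, -3]]

/-- `48` times the inverse of `S` -/
def T : Fin 16 → Fin 16 → ℤ :=
  ![![3, 3, 3, -9, -9, 3, 3, 3, 9, 21, -15, -15, -1, -5, -5, 7],
    ![3, 3, 3, -9, 3, -1, -1, -1, -3, -7, 5, 5, -1, -5, -5, 7],
    ![3, 3, 3, -9, 3, -1, -1, -1, -3, -7, 5, 5, -1, 11, 11, -25],
    ![-9, -9, -9, 27, 3, -1, -1, -1, -3, -7, 5, 5, -1, -5, -5, 7],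
    ![-6, 2, 2, 2, 0, 2, -6, 2, 0, -14, -14, 26, 0, 0, 0, 0],
    ![-6, 2, 2, 2, -6, 4, -4, 4, 6, 0, 0, -8, 0, 0, 0, 0],
    ![-6, 2, 2, 2, 12, -2, -10, -2, -12, 6, 6, -2, 0, 0, 0, 0],
    ![30, -10, -10, -10, -6, 4, -4, 4, 6, 0, 0, -8, 0, 0, 0, 0],
    ![-6, 2, 2, 2, 0, -30, 10, 18, 0, 2, 2, -6, 0, 0, 0, 0],
    ![-6, 2, 2, 2, 0, 18, 10, -30, 0, 2, 2, -6, 0, 0, 0, 0],
    ![0, 0, 0, 0, -3, -1, -1, -1, -1, 1, 1, 1, 0, 0, 0, 0],
    ![-5, -5, 11, -5, 0, 0, 0, 0, 0, 0, 0, 0, -1, -21, 11, 11],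
    ![-5, -5, 11, -5, 0, 0, 0, 0, 0, 0, 0, 0, -1, 11, -5, -5],
    ![7, 7, -25, 7, 0, 0, 0, 0, 0, 0, 0, 0, -1, 11, -5, -5],
    ![0, 0, 0, 0, -1, 1, 1, 1, -3, -1, -1, -1, 0, 0, 0, 0],
    ![-1, -1, -1, -1, 0, 0, 0, 0, 0, 0, 0, 0, 3, -1, -1, -1]]


/-- the bipartite graph -/
def Γ : SimpleGraph (Fin 16) where
  Adj i j := t₁ i j = 1
  symm := ⟨by decide +kernel⟩
  loopless := ⟨by decide +kernel⟩

/-- the non-bipartite graph -/
def Ω : SimpleGraph (Fin 16) where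
  Adj i j := t₂ i j = 1
  symm := ⟨by decide +kernel⟩
  loopless := ⟨by decide +kernel⟩

/-! ### The tables are the distance functions -/

lemma le_add_length {V : Type*} {G : SimpleGraph V} {d : V → V → ℕ}
    (h1 : ∀ i j k, G.Adj j k → d i k ≤ d i j + 1) (i : V) {j k : V} (w : G.Walk j k) :
    d i k ≤ d i j + w.length := by
  induction w with
  | nil => simp
  | cons h p ih =>
    rw [SimpleGraph.Walk.length_cons]
    have := h1 i _ _ h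
    omega

lemma exists_walk {V : Type*} {G : SimpleGraph V} {d : V → V → ℕ}
    (h2 : ∀ i j, i ≠ j → ∃ k, G.Adj k j ∧ d i j = d i k + 1) (m : ℕ) :
    ∀ i j : V, d i j = m → (h0 : ∀ i, d i i = 0) → ∃ w : G.Walk i j, w.length = m := by
  induction m with
  | zero =>
    intro i j h _
    by_cases hij : i = j
    · subst hij
      exact ⟨SimpleGraph.Walk.nil, rfl⟩
    · obtain ⟨k, _, hk⟩ := h2 i j hij
      omega
  | succ m ih =>
    intro i j h h0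
    by_cases hij : i = j
    · subst hij
      rw [h0] at h
      omega
    · obtain ⟨k, hkj, hk⟩ := h2 i j hij
      obtain ⟨w, hw⟩ := ih i k (by omega) h0
      refine ⟨w.concat hkj, ?_⟩
      rw [SimpleGraph.Walk.length_concat, hw]

lemma dist_eq {V : Type*} {G : SimpleGraph V} {d : V → V → ℕ} (h0 : ∀ i, d i i = 0)
    (h1 : ∀ i j k, G.Adj j k → d i k ≤ d i j + 1)
    (h2 : ∀ i j, i ≠ j → ∃ k, G.Adj k j ∧ d i j = d i k + 1) (i j : V) :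
    G.Reachable i j ∧ G.dist i j = d i j := by
  obtain ⟨w, hw⟩ := exists_walk h2 (d i j) i j rfl h0
  have hr : G.Reachable i j := w.reachable
  refine ⟨hr, le_antisymm ?_ ?_⟩
  · rw [← hw]
    exact SimpleGraph.dist_le w
  · obtain ⟨w', hw'⟩ := hr.exists_walk_length_eq_dist
    have := le_add_length h1 i w'
    rw [h0, hw'] at this
    omega

lemma Γ_dist (i j : Fin 16) : Γ.Reachable i j ∧ Γ.dist i j = t₁ i j := by
  apply dist_eq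
  · decide +kernel
  · show ∀ i j k, t₁ j k = 1 → t₁ i k ≤ t₁ i j + 1
    decide +kernel
  · show ∀ i j, i ≠ j → ∃ k, t₁ k j = 1 ∧ t₁ i j = t₁ i k + 1
    decide +kernel

lemma Ω_dist (i j : Fin 16) : Ω.Reachable i j ∧ Ω.dist i j = t₂ i j := by
  apply dist_eq
  · decide +kernel
  · show ∀ i j k, t₂ j k = 1 → t₂ i k ≤ t₂ i j + 1
    decide +kernel
  · show ∀ i j, i ≠ j → ∃ k, t₂ k j = 1 ∧ t₂ i j = t₂ i k + 1
    decide +kernel

/-! ### Cospectrality -/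

lemma S_T : ∀ i j : Fin 16, ∑ k, S i k * T k j = if i = j then 48 else 0 := by
  decide +kernel

lemma T_S : ∀ i j : Fin 16, ∑ k, T i k * S k j = if i = j then 48 else 0 := by
  decide +kernel

lemma S_t : ∀ i j : Fin 16, ∑ k, S i k * (t₁ k j : ℤ) = ∑ k, (t₂ i k : ℤ) * S k j := by
  decide +kernel

/-- `S` over `ℝ` -/
noncomputable def SR : Matrix (Fin 16) (Fin 16) ℝ := fun i j => (S i j : ℝ)

/-- `T` over `ℝ` -/
noncomputable def TR : Matrix (Fin 16) (Fin 16) ℝ := fun i j => (T i j : ℝ) / 48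

lemma SR_TR : SR * TR = 1 := by
  ext i j
  rw [Matrix.mul_apply]
  have h : ((∑ k, S i k * T k j : ℤ) : ℝ) = ((if i = j then 48 else 0 : ℤ) : ℝ) := by rw [S_T]
  push_cast at h
  calc ∑ k, SR i k * TR k j = (∑ k, (S i k : ℝ) * (T k j : ℝ)) / 48 := by
        rw [Finset.sum_div]
        refine Finset.sum_congr rfl fun k _ => ?_
        simp only [SR, TR]
        ring
    _ = (1 : Matrix (Fin 16) (Fin 16) ℝ) i j := by
        rw [h, Matrix.one_apply]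
        split_ifs <;> norm_num

lemma TR_SR : TR * SR = 1 := by
  ext i j
  rw [Matrix.mul_apply]
  have h : ((∑ k, T i k * S k j : ℤ) : ℝ) = ((if i = j then 48 else 0 : ℤ) : ℝ) := by rw [T_S]
  push_cast at h
  calc ∑ k, TR i k * SR k j = (∑ k, (T i k : ℝ) * (S k j : ℝ)) / 48 := by
        rw [Finset.sum_div]
        refine Finset.sum_congr rfl fun k _ => ?_
        simp only [SR, TR]
        ring
    _ = (1 : Matrix (Fin 16) (Fin 16) ℝ) i j := by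
        rw [h, Matrix.one_apply]
        split_ifs <;> norm_num

lemma intertwine : SR * distMatrix Γ = distMatrix Ω * SR := by
  ext i j
  rw [Matrix.mul_apply, Matrix.mul_apply]
  have h : ((∑ k, S i k * (t₁ k j : ℤ) : ℤ) : ℝ) = ((∑ k, (t₂ i k : ℤ) * S k j : ℤ) : ℝ) := by
    rw [S_t]
  push_cast at h
  simp only [SR, distMatrix, (Γ_dist _ _).2, (Ω_dist _ _).2]
  exact h

/-- `S` as a unit -/
noncomputable def U : (Matrix (Fin 16) (Fin 16) ℝ)ˣ := ⟨SR, TR, SR_TR, TR_SR⟩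

lemma charpoly_eq : (distMatrix Γ).charpoly = (distMatrix Ω).charpoly := by
  have h : (distMatrix Ω) = U.val * distMatrix Γ * U⁻¹.val := by
    show distMatrix Ω = SR * distMatrix Γ * TR
    rw [intertwine, Matrix.mul_assoc, SR_TR, Matrix.mul_one]
  rw [h, Matrix.coe_units_inv]
  exact (Matrix.charpoly_units_conj U (distMatrix Γ)).symm

/-- **Theorem.** There are two connected graphs on `16` vertices with the same distance spectrum, one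
of them bipartite and the other one not bipartite. So bipartiteness is not determined by the distance
spectrum. -/
theorem result : ∃ Γ Ω : SimpleGraph (Fin 16), Γ.Connected ∧ Ω.Connected ∧
    distSpectrum Γ = distSpectrum Ω ∧ Γ.IsBipartite ∧ ¬ Ω.IsBipartite := by
  refine ⟨Γ, Ω, ?_, ?_, ?_, ?_, ?_⟩
  · exact ⟨fun i j => (Γ_dist i j).1⟩
  · exact ⟨fun i j => (Ω_dist i j).1⟩
  · rw [distSpectrum, distSpectrum, charpoly_eq]
  · refine ⟨SimpleGraph.Coloring.mk (fun i => (⟨t₁ 0 i % 2, Nat.mod_lt _ (by norm_num)⟩ : Fin 2)) ?_⟩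
    have key : ∀ v w : Fin 16, t₁ v w = 1 →
        (⟨t₁ 0 v % 2, Nat.mod_lt _ (by norm_num)⟩ : Fin 2) ≠ ⟨t₁ 0 w % 2, Nat.mod_lt _ (by norm_num)⟩ := by
      decide +kernel
    intro v w h
    exact key v w h
  · intro ⟨c⟩
    have a1 : Ω.Adj 4 5 := by show t₂ 4 5 = 1; decide +kernel
    have a2 : Ω.Adj 5 12 := by show t₂ 5 12 = 1; decide +kernel
    have a3 : Ω.Adj 4 12 := by show t₂ 4 12 = 1; decide +kernel
    have b1 := c.valid a1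
    have b2 := c.valid a2
    have b3 := c.valid a3
    revert b1 b2 b3
    generalize c 4 = x
    generalize c 5 = y
    generalize c 12 = z
    revert x y z
    decide

end Pool.Agent.Results.MP_69260a_co.BipartiteCospectral
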